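import Mathlib
import Pool.Agent.K9h70.NC.Final

/-!
# Non-centred star bodies that are homothetic to their intersection body of order `i`

For every `n ≥ 4` and every real `1 < i ≤ n - 1`, in particular for the classical intersection body
(`i = n - 1`), the star bodies `L` of `ℝⁿ` for which `I_i L` is homothetic to `L` are not only the
centred balls: every point `p ≠ 0` near the origin is the centre of symmetry of such a star body, which is
neither centred nor a ball (so not a translate of a centred ball either).

Since `I_i L` is centred, `I_i L = x + r L` forces `L = M + p` with a centred `M`, and the equation is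
`ρ_M = c R ((ρ_{M + p}) ^ i)` with the spherical Radon transform `R`.  For `p = 0` and integers
`2 ≤ i ≤ n - 2` the starting result `IntegerOrders` says that only balls are solutions; here the
equation is solved for every small `p ≠ 0`, with bodies of revolution about `p`.

Outline.  For bodies of revolution `R` is an average over `[0,1]` of functions of the square of the
cosine (Archimedes' theorem on `S²`, averaged over three-dimensional subspaces, this needs `n ≥ 4`), so
`R` gains a derivative.  The translation loses nothing: the even part of `(ρ_{M + p}) ^ i` is a Lipschitz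
function of the square of the cosine with constant `i Λ (1 + O(Λ)) + O(|p|)` if the profile of `M` is
Lipschitz with constant `Λ` (the terms of first order in `|p|`, which are not Lipschitz functions of the
square, cancel by the regularity gained by `R`).  On these functions `R` has norm `1 / (n - 1)`, and
Schauder's theorem gives a solution if `i < n - 1`.  For `i = n - 1` the linearisation `- K` at the ball
has norm one, `K` a Markov operator; a Doeblin estimate shows that the cube of `(1 - K) / 2` is a strict
contraction, and Schauder's theorem is applied to the averaged map on a smaller convex set.  The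
solution is not a ball, because for a ball with centre `p` the arithmetic-geometric mean inequality
applied to `ρ(v) ρ(-v) = 1 - |p|²` shows that `I_i L` is not a ball.
-/

set_option autoImplicit false

namespace Pool.Agent.Results.MP_0a1ca9_gt.NonCentred

open MeasureTheory Set Metric

section Defs

variable {E : Type*} [NormedAddCommGroup E] [InnerProductSpace ℝ E]

/-- The radial function `ρ_L(u) = sup {c ≥ 0 : c u ∈ L}`. -/
noncomputable def radial (L : Set E) (u : E) : ℝ := sSup {c : ℝ | 0 ≤ c ∧ c • u ∈ L}

/-- A star body: a compact set, star-shaped with respect to the origin, whose radial function is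
continuous on the unit sphere. -/
structure IsStarBody (L : Set E) : Prop where
  compact : IsCompact L
  zero_mem : (0 : E) ∈ L
  star : StarConvex ℝ 0 L
  cont : ContinuousOn (radial L) (sphere (0 : E) 1)

/-- The hyperplane `u^⊥`. -/
noncomputable def hyperplane (u : E) : Submodule ℝ E := (Submodule.span ℝ {u})ᗮ

variable [FiniteDimensional ℝ E] [MeasurableSpace E] [BorelSpace E]

/-- The spherical Lebesgue measure on the unit sphere of the hyperplane `u^⊥`. -/
noncomputable def sphereMeasure (u : E) : Measure (sphere (0 : hyperplane u) 1) :=
  (volume : Measure (hyperplane u)).toSphere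

/-- The radial function of the intersection body of order `i`:
`(1 / (n - 1)) ∫ ρ_L(v) ^ i dv`, the integral being taken over the unit sphere of the hyperplane
`u^⊥` with respect to its spherical Lebesgue measure; `n` is the dimension of the space. -/
noncomputable def orderRadial (i : ℝ) (L : Set E) (u : E) : ℝ :=
  1 / ((Module.finrank ℝ E : ℝ) - 1) *
    ∫ v, (radial L ((v : hyperplane u) : E)) ^ i ∂(sphereMeasure u)

/-- The intersection body of order `i`: the star-shaped set with radial function
`orderRadial i L`. -/
def intersectionBody (i : ℝ) (L : Set E) : Set E :=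
  {x | ∃ u ∈ sphere (0 : E) 1, ∃ c : ℝ, 0 ≤ c ∧ c ≤ orderRadial i L u ∧ x = c • u}

end Defs

/-- **Main result.** -/
theorem result {n : ℕ} (hn : 4 ≤ n) (i : ℝ) (hi : 1 < i) (hin : i ≤ (n : ℝ) - 1) :
    ∃ ε : ℝ, 0 < ε ∧ ∀ p : EuclideanSpace ℝ (Fin n), p ≠ 0 → ‖p‖ < ε →
      ∃ L : Set (EuclideanSpace ℝ (Fin n)), IsStarBody L ∧
        -- `I_i L` is homothetic to `L`
        (∃ r : ℝ, 0 < r ∧ intersectionBody i L = (fun z => -(r • p) + r • z) '' L) ∧
        -- `L` is symmetric about `p`
        (∀ z ∈ L, (2 : ℝ) • p - z ∈ L) ∧
        -- `L` is not a ball
        ¬ ∃ (c : EuclideanSpace ℝ (Fin n)) (R : ℝ), L = closedBall c R := by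
  obtain ⟨ε, hε, H⟩ := Pool.Agent.K9h70.NC.final hn i (by linarith) hin
  refine ⟨ε, hε, fun p hp hpε => ?_⟩
  obtain ⟨L, hL, hs, hr, hb⟩ := H p hp hpε
  exact ⟨L, ⟨hL.compact, hL.zero_mem, hL.star, hL.cont⟩, hr, hs, hb⟩

end Pool.Agent.Results.MP_0a1ca9_gt.NonCentred
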